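import Pool.Agent.helper82.SC.SpecA

/-!
# sp:CARC  the source on the opposite arc is never joined to the corner
-/

namespace Pool.Agent.helper82.SC

open Relation

theorem ARC (hGP : GP_stmt) (hCA : CA_stmt) (hCO : CO_stmt) (hB4 : B4_stmt) : ARC_stmt := by
  classical
  intro D j p part hpart
  obtain ⟨hFU, hp1, hp2, hs1, hs2, hadd, hpa, -, -⟩ := id hpart
  have hB := hB4 D j p part hpart
  have hbij := hCA D (beta4 D j part) p hB
  obtain ⟨hfin, hcor, -, -⟩ := hCO D
  have hempty : {ψ | ψ ∈ D.Conf p ∧ D.Jn ψ p j} = ∅ := by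
    rw [Set.eq_empty_iff_forall_notMem]
    rintro ψ ⟨hψ, hJ⟩
    obtain ⟨s, -, hs⟩ := hbij.surjOn hψ
    set c : V → ZMod 2 := cx D (beta4 D j part) s with hc
    have hψc : ∀ x : Dart, D.FU x.1 → ψ x = c (S x.1 x.2) + c (S x.1 (x.2 + 1)) := by
      intro x hx
      rw [← hs]
      unfold psix
      rw [if_pos hx]
    have hcβ : ∀ v, v ∉ D.U → c v = beta4 D j part v := by
      intro v hv
      rw [hc]
      unfold cx
      rw [if_neg hv]
    have hc1 : c (S p.1 p.2) = part (S p.1 p.2) := by
      rw [hcβ _ hp1]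
      unfold beta4
      rw [if_pos hs1]
    have hc2 : c (S p.1 (p.2 + 1)) = part (S p.1 (p.2 + 1)) := by
      rw [hcβ _ hp2]
      unfold beta4
      rw [if_pos hs2]
    have hψp : ψ p = 1 := by
      rw [hψc p hFU, hc1, hc2, hadd p hFU hp1 hp2 hs1 hs2, if_pos rfl]
    have hψsp : ψ (star p) = 0 := by
      rw [hψ.2.1 p, if_pos (Or.inl rfl), hψp]
      decide
    obtain ⟨hF1, hF2, hw1, hw2⟩ := hcor j
    have hψa : ψ (star (D.a j)) = 1 := by
      rw [hψ.2.2 _ hF2]
      exact hw2
    have hzp : zp ψ p = p := by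
      unfold zp
      rw [if_pos hψp]
    have hCn : CnK {f | D.FU f} ψ p (star (D.a j)) := by
      have h1 : D.Cn ψ (zp ψ p) (star (D.a j)) := hJ
      rw [hzp] at h1
      exact h1
    have hI : Inc {f | D.FU f} ψ (p, false) := by
      refine ⟨hψp, Or.inl hFU, ?_⟩
      simpa using hψsp
    have hI' : Inc {f | D.FU f} ψ (star (D.a j), true) := by
      refine ⟨hψa, Or.inr ?_, ?_⟩
      · change D.FU (star (star (D.a j))).1
        rw [star_star]
        exact hF1
      · simpa using hF2
    have h2 := hGP {f | D.FU f} ψ c hfin hψc (p, false) (star (D.a j), true)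
      (fun h => absurd (congrArg Prod.snd h) (by simp)) hI hI' hCn
    have h3 : c (S (star (D.a j)).1 (star (D.a j)).2) = 0 := by
      have h4 : S (star (D.a j)).1 (star (D.a j)).2 = S (D.a j).1 ((D.a j).2 + 1) := S_tw _ _
      rw [h4, hcβ _ (D.second j)]
      unfold beta4
      rw [D.sec_second j, if_neg, if_neg]
      · intro h; revert h; fin_cases j <;> decide
      · intro h; revert h; fin_cases j <;> decide
    have h5 : c (S (star (D.a j)).1 (star (D.a j)).2) = c (S p.1 p.2) + 0 := by
      simpa using h2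
    rw [h3, hc1, hpa] at h5
    exact absurd h5 (by decide)
  unfold Dom.P
  rw [hempty]
  simp

end Pool.Agent.helper82.SC
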