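import Pool.Agent.helper82.SC.SpecA

/-!
# sp:CPA  parity lemma for two involutions
-/

namespace Pool.Agent.helper82.SC

open Relation

/-- the alternating path -/
def PA_seq {X : Type} (σ ρ : X → X) (x : X) : ℕ → X
  | 0 => x
  | n + 1 => if n % 2 = 0 then ρ (PA_seq σ ρ x n) else σ (PA_seq σ ρ x n)

theorem PA_seq_even {X : Type} (σ ρ : X → X) (x : X) (j : ℕ) :
    PA_seq σ ρ x (2 * j) = (σ ∘ ρ)^[j] x := by
  induction j with
  | zero => rfl
  | succ j ih =>
    rw [Function.iterate_succ_apply', ← ih]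
    have h1 : 2 * (j + 1) = 2 * j + 1 + 1 := by ring
    rw [h1]
    conv_lhs => unfold PA_seq
    rw [if_neg (by omega)]
    conv_lhs => unfold PA_seq
    rw [if_pos (by omega)]
    rfl

theorem PA_core (X : Type) [Finite X] (σ ρ : X → X) (hσ : Function.Involutive σ)
    (hρ : Function.Involutive ρ) (L : X → ZMod 2) (hLσ : ∀ x, σ x ≠ x → L (σ x) = L x + 1)
    (hLρ : ∀ x, ρ x ≠ x → L (ρ x) = L x + 1) (x : X) (hx : σ x = x) :
    ∃ (n : ℕ) (y : X), (n % 2 = 1 → σ y = y ∧ y ≠ x) ∧ (n % 2 = 0 → ρ y = y) ∧ L y = L x + (n : ZMod 2) ∧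
      ReflTransGen (fun a b => b = σ a ∨ b = ρ a) x y := by
  classical
  set s := PA_seq σ ρ x with hs
  have hs0 : s 0 = x := rfl
  have hss : ∀ n, s (n + 1) = if n % 2 = 0 then ρ (s n) else σ (s n) := fun n => rfl
  -- a fixed step
  have hex : ∃ n, s (n + 1) = s n := by
    have hinj : Function.Injective (σ ∘ ρ) := hσ.injective.comp hρ.injective
    have hper : x ∈ Function.periodicPts (σ ∘ ρ) := by
      have := Fintype.ofFinite X
      exact Function.Injective.mem_periodicPts hinj x
    obtain ⟨m, hm, hmx⟩ := hper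
    obtain ⟨m', rfl⟩ : ∃ m', m = m' + 1 := ⟨m - 1, by omega⟩
    have h1 : s (2 * (m' + 1)) = x := by
      rw [hs, PA_seq_even]
      exact hmx
    refine ⟨2 * m' + 1, ?_⟩
    have h2 : s (2 * m' + 1 + 1) = σ (s (2 * m' + 1)) := by
      rw [hss, if_neg (by omega)]
    have h3 : s (2 * m' + 1 + 1) = x := by
      rw [← h1]; rfl
    have h4 : s (2 * m' + 1) = x := by
      have h5 : σ (s (2 * m' + 1 + 1)) = s (2 * m' + 1) := by rw [h2, hσ]
      rw [← h5, h3, hx]
    rw [h3, h4]
  have hfix := Nat.find_spec hex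
  have hmin := fun m hm => Nat.find_min hex (m := m) hm
  set n := Nat.find hex with hn
  have hL : ∀ m, m ≤ n → L (s m) = L x + (m : ZMod 2) := by
    intro m
    induction m with
    | zero => intro _; rw [hs0]; simp
    | succ m ih =>
      intro hm
      have h6 := hmin m (by omega)
      rw [hss] at h6 ⊢
      push_cast
      rw [← add_assoc, ← ih (by omega)]
      split_ifs at h6 ⊢ with h7
      · exact hLρ _ h6
      · exact hLσ _ h6
  have hR : ∀ m, ReflTransGen (fun a b => b = σ a ∨ b = ρ a) x (s m) := by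
    intro m
    induction m with
    | zero => exact ReflTransGen.refl
    | succ m ih =>
      refine ih.tail ?_
      rw [hss]
      split_ifs
      · exact Or.inr rfl
      · exact Or.inl rfl
  refine ⟨n, s n, ?_, ?_, hL n le_rfl, hR n⟩
  · intro h8
    rw [hss, if_neg (by omega)] at hfix
    refine ⟨hfix, fun h9 => ?_⟩
    have h10 := hL n le_rfl
    rw [h9] at h10
    have h11 : ((n : ℕ) : ZMod 2) = 0 := by
      have := h10
      simpa using this
    rw [ZMod.natCast_eq_zero_iff] at h11
    omega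
  · intro h8
    rwa [hss, if_pos h8] at hfix

theorem PA (hMA : MA_stmt) : PA_stmt := by
  intro X _ σ ρ hσ hρ L hLσ hLρ i i' hne hi hi' hcl
  obtain ⟨i0, -, huniq⟩ := hMA X σ ρ hσ hρ i hi
  have h1 := huniq i' ⟨hne, hi', hcl⟩
  have key : ∀ i'' : X × Bool, i'' ≠ i → Fx σ ρ i'' →
      ReflTransGen (fun a b => b = σ a ∨ b = ρ a) i.1 i''.1 → i'' = i' := by
    intro i'' h2 h3 h4
    rw [h1]
    exact huniq i'' ⟨h2, h3, h4⟩
  obtain ⟨x, b⟩ := i
  cases b with
  | true =>
    obtain ⟨n, y, hodd, heven, hLy, hR⟩ := PA_core X σ ρ hσ hρ L hLσ hLρ x (by simpa [Fx] using hi)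
    rcases Nat.mod_two_eq_zero_or_one n with h5 | h5
    · have h6 := key (y, false) (by simp) (by simpa [Fx] using heven h5) hR
      rw [← h6]
      have h7 : (n : ZMod 2) = 0 := by rw [ZMod.natCast_eq_zero_iff]; omega
      simp [hLy, h7]
    · have h6 := key (y, true) (by simpa using (hodd h5).2) (by simpa [Fx] using (hodd h5).1) hR
      rw [← h6]
      have h7 : (n : ZMod 2) = 1 := by
        have : ((n : ℕ) : ZMod 2) = ((1 : ℕ) : ZMod 2) := by
          rw [ZMod.natCast_eq_natCast_iff]; exact h5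
        simpa using this
      simp [hLy, h7]
  | false =>
    obtain ⟨n, y, hodd, heven, hLy, hR⟩ := PA_core X ρ σ hρ hσ L hLρ hLσ x (by simpa [Fx] using hi)
    have hR' : ReflTransGen (fun a b => b = σ a ∨ b = ρ a) x y := by
      have h12 : (fun a b : X => b = σ a ∨ b = ρ a) = fun a b => b = ρ a ∨ b = σ a := by
        funext a b
        exact propext or_comm
      rw [h12]
      exact hR
    rcases Nat.mod_two_eq_zero_or_one n with h5 | h5
    · have h6 := key (y, true) (by simp) (by simpa [Fx] using heven h5) hR'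
      rw [← h6]
      have h7 : (n : ZMod 2) = 0 := by rw [ZMod.natCast_eq_zero_iff]; omega
      simp [hLy, h7]
    · have h6 := key (y, false) (by simpa using (hodd h5).2) (by simpa [Fx] using (hodd h5).1) hR'
      rw [← h6]
      have h7 : (n : ZMod 2) = 1 := by
        have : ((n : ℕ) : ZMod 2) = ((1 : ℕ) : ZMod 2) := by
          rw [ZMod.natCast_eq_natCast_iff]; exact h5
        simpa using this
      simp [hLy, h7]

end Pool.Agent.helper82.SC
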